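import Mathlib

set_option autoImplicit false

namespace Pool.Agent.Results.MP_47458b_co.Lower

open Finset

/-- out-degree -/
noncomputable def outdeg {V : Type} (D : V → V → Prop) (v : V) : ℕ := {w | D v w}.ncard

/-- in-degree -/
noncomputable def indeg {V : Type} (D : V → V → Prop) (v : V) : ℕ := {u | D u v}.ncard

/-- an oriented graph: no loops and no pair of opposite arcs -/
def IsOriented {V : Type} (D : V → V → Prop) : Prop := ∀ u w, D u w → ¬ D w u

/-- a digraph: no loops -/
def IsDigraph {V : Type} (D : V → V → Prop) : Prop := ∀ u, ¬ D u u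

/-- an oriented tree with `k` edges (so `k + 1` vertices) -/
def IsOrientedTree {k : ℕ} (T : Fin (k + 1) → Fin (k + 1) → Prop) : Prop :=
  IsOriented T ∧ (SimpleGraph.fromRel T).IsTree

/-- `D` has a subdigraph isomorphic to `T` -/
def ContainsCopy {V W : Type} (D : V → V → Prop) (T : W → W → Prop) : Prop :=
  ∃ φ : W → V, Function.Injective φ ∧ ∀ a c, T a c → D (φ a) (φ c)

/-- the value `x = f(k)` works for `k` and the hosts in the class `C` -/
def Works (C : ∀ {V : Type}, (V → V → Prop) → Prop) (k : ℕ) (x : ℝ) : Prop :=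
  ∀ (V : Type) [Finite V] (D : V → V → Prop), C D →
    (∀ v, x < outdeg D v ∧ x < indeg D v) → (∃ v, k ≤ outdeg D v ∧ k ≤ indeg D v) →
    ∀ T : Fin (k + 1) → Fin (k + 1) → Prop, IsOrientedTree T → ContainsCopy D T

/-- the tree: `1..b → 0`, and `1 + (c-1) % b → c` for `c > b` -/
def Tr (k b : ℕ) (a c : Fin (k + 1)) : Prop :=
  ((c : ℕ) = 0 ∧ 1 ≤ (a : ℕ) ∧ (a : ℕ) ≤ b) ∨ (b < (c : ℕ) ∧ (a : ℕ) = 1 + (c - 1) % b)

lemma tr_tree (k b : ℕ) (hb : 0 < b) (hbk : b ≤ k) : IsOrientedTree (Tr k b) := by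
  have hm : ∀ x, x % b < b := fun x => Nat.mod_lt x hb
  refine ⟨?_, ?_⟩
  · intro u w h1 h2
    have := hm (u - 1)
    have := hm (w - 1)
    unfold Tr at h1 h2
    omega
  · have hconn : (SimpleGraph.fromRel (Tr k b)).Connected := by
      have h1 : ∀ a : Fin (k + 1), (a : ℕ) ≤ b → (SimpleGraph.fromRel (Tr k b)).Reachable a 0 := by
        intro a ha
        by_cases h0 : a = 0
        · rw [h0]
        · refine SimpleGraph.Adj.reachable ?_
          rw [SimpleGraph.fromRel_adj]
          have : (a : ℕ) ≠ 0 := fun h => h0 (Fin.ext h)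
          exact ⟨h0, Or.inl (Or.inl ⟨rfl, by omega, ha⟩)⟩
      have h2 : ∀ a : Fin (k + 1), (SimpleGraph.fromRel (Tr k b)).Reachable a 0 := by
        intro a
        by_cases ha : (a : ℕ) ≤ b
        · exact h1 a ha
        · have := hm (a - 1)
          refine SimpleGraph.Reachable.trans (v := ⟨1 + (a - 1) % b, by omega⟩) ?_
            (h1 _ (by simp only; omega))
          refine SimpleGraph.Adj.reachable ?_
          rw [SimpleGraph.fromRel_adj]
          refine ⟨fun h => ?_, Or.inr (Or.inr ⟨by omega, rfl⟩)⟩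
          have := congrArg Fin.val h
          simp only at this
          omega
      exact ⟨fun u v => (h2 u).trans (h2 v).symm⟩
    rw [SimpleGraph.isTree_iff_connected_and_card]
    refine ⟨hconn, le_antisymm ?_ hconn.card_vert_le_card_edgeSet_add_one⟩
    let par : Fin (k + 1) → Fin (k + 1) := fun c =>
      if (c : ℕ) ≤ b then 0 else ⟨1 + (c - 1) % b, by have := hm (c - 1); omega⟩
    have key : ∀ a c, Tr k b a c → ∃ i : Fin k, s(par i.succ, i.succ) = s(a, c) := by
      intro a c h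
      rcases h with h | h
      · obtain ⟨i, rfl⟩ := Fin.exists_succ_eq.2 (show a ≠ 0 from fun e => by
          rw [e] at h; simp at h)
        refine ⟨i, ?_⟩
        have e : c = 0 := Fin.ext h.1
        simp only [par, if_pos h.2.2, e]
        exact Sym2.eq_swap
      · obtain ⟨i, rfl⟩ := Fin.exists_succ_eq.2 (show c ≠ 0 from fun e => by
          rw [e] at h; simp at h)
        refine ⟨i, ?_⟩
        simp only [par, if_neg (not_le.2 h.1)]
        congr 1
        exact Fin.ext h.2.symm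
    have hsub : (SimpleGraph.fromRel (Tr k b)).edgeSet ⊆
        Set.range fun i : Fin k => s(par i.succ, i.succ) := by
      intro e he
      induction e using Sym2.ind with
      | h a c =>
        rw [SimpleGraph.mem_edgeSet, SimpleGraph.fromRel_adj] at he
        rcases he.2 with h | h
        · exact key a c h
        · rw [Sym2.eq_swap]
          exact key c a h
    have h1 := Nat.card_mono (Set.toFinite _) hsub
    have h2 := Finite.card_range_le (fun i : Fin k => s(par i.succ, i.succ))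
    simp only [Nat.card_eq_fintype_card, Fintype.card_fin] at h1 h2 ⊢
    omega

/-- out-label -/
def X (k s : ℕ) (u : Fin (k + 3) × Fin (s + 1)) : ℕ :=
  if (u.2 : ℕ) = s ∧ 2 ≤ (u.1 : ℕ) then 0 else if (u.1 : ℕ) = k + 2 then 0 else u.1 + 1

/-- the host -/
def H (k s : ℕ) (u w : Fin (k + 3) × Fin (s + 1)) : Prop :=
  X k s u = w.1 ∨ (u = (0, 0) ∧ (w.2 : ℕ) = 0 ∧ 2 ≤ (w.1 : ℕ) ∧ (w.1 : ℕ) ≤ k + 1)

lemma le_ncard {V : Type} [Finite V] {m : ℕ} (S : Set V) (g : Fin m → V)
    (hg : Function.Injective g) (h : ∀ i, g i ∈ S) : m ≤ S.ncard := by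
  have h1 : (Set.range g).ncard ≤ S.ncard :=
    Set.ncard_le_ncard (by rintro _ ⟨i, rfl⟩; exact h i) (Set.toFinite _)
  rwa [Set.ncard_range_of_injective hg, Nat.card_eq_fintype_card, Fintype.card_fin] at h1

lemma main (k s b q : ℕ) (hs : 0 < s) (hb : 0 < b) (hq : k ≤ b * q) (hk : s + b + q ≤ k) :
    IsOriented (H k s) ∧ (∀ v, s ≤ outdeg (H k s) v ∧ s ≤ indeg (H k s) v) ∧
    (∃ v, k ≤ outdeg (H k s) v ∧ k ≤ indeg (H k s) v) ∧ ¬ ContainsCopy (H k s) (Tr k b) := by
  refine ⟨?_, ?_, ?_, ?_⟩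
  · rintro ⟨a, i⟩ ⟨c, j⟩ h1 h2
    have := a.2
    have := c.2
    simp only [H, X, Prod.mk.injEq, Fin.ext_iff, Fin.val_zero] at h1 h2
    split_ifs at h1 h2 <;> omega
  · rintro ⟨a, i⟩
    have ha := a.2
    constructor
    · have hX : X k s (a, i) < k + 3 := by
        simp only [X]
        split_ifs <;> omega
      refine le_ncard _ (fun j : Fin s => (⟨X k s (a, i), hX⟩, j.castSucc)) ?_ fun j => Or.inl rfl
      intro j j' h
      exact Fin.castSucc_injective _ (Prod.ext_iff.1 h).2
    · refine le_ncard _ (fun j : Fin s =>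
        (⟨if (a : ℕ) = 0 then k + 2 else a - 1, by split_ifs <;> omega⟩, j.castSucc)) ?_ fun j => ?_
      · intro j j' h
        exact Fin.castSucc_injective _ (Prod.ext_iff.1 h).2
      · refine Or.inl ?_
        have := j.2
        simp only [X, Fin.val_castSucc]
        split_ifs <;> omega
  · refine ⟨(0, 0), ?_, ?_⟩
    · refine le_ncard _ (fun j : Fin k => (⟨j + 2, by omega⟩, 0)) ?_ fun j => ?_
      · intro j j' h
        have := congrArg Fin.val (Prod.ext_iff.1 h).1
        exact Fin.ext (by simpa using this)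
      · have := j.2
        exact Or.inr ⟨rfl, rfl, by simp, by simp only; omega⟩
    · refine le_ncard _ (fun j : Fin k => (⟨j + 2, by omega⟩, Fin.last s)) ?_ fun j => ?_
      · intro j j' h
        have := congrArg Fin.val (Prod.ext_iff.1 h).1
        exact Fin.ext (by simpa using this)
      · refine Or.inl ?_
        simp [X]
  · rintro ⟨φ, hφ, hT⟩
    have hm : ∀ x, x % b < b := fun x => Nat.mod_lt x hb
    obtain ⟨p, hp⟩ : ∃ p : ℕ, ∀ a, φ a = (0, 0) → (a : ℕ) = p := by
      by_cases h : ∃ a, φ a = (0, 0)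
      · obtain ⟨a, ha⟩ := h
        exact ⟨a, fun a' ha' => congrArg Fin.val (hφ (ha'.trans ha.symm))⟩
      · exact ⟨0, fun a ha => absurd ⟨a, ha⟩ h⟩
    let S := (univ : Finset (Fin (k + 1))).filter fun c : Fin (k + 1) =>
      (c : ℕ) = 0 ∨ (b < (c : ℕ) ∧ 1 + ((c : ℕ) - 1) % b ≠ p)
    have h1 : ∀ c ∈ S, (φ c).1 = (φ 0).1 := by
      intro c hc
      rcases (mem_filter.1 hc).2 with h | h
      · rw [show c = 0 from Fin.ext h]
      · have := hm (c - 1)
        let a : Fin (k + 1) := ⟨1 + (c - 1) % b, by omega⟩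
        have hne : φ a ≠ (0, 0) := fun e => h.2 (hp a e)
        have e1 := (hT a c (Or.inr ⟨h.1, rfl⟩)).resolve_right fun e => hne e.1
        have e2 := (hT a 0 (Or.inl ⟨rfl, by simp [a], by simp only [a]; omega⟩)).resolve_right
          fun e => hne e.1
        exact Fin.ext (e1.symm.trans e2)
    have h2 : S.card ≤ s + 1 := by
      have := card_le_card_of_injOn (s := S) (t := (univ : Finset (Fin (s + 1))))
        (fun c => (φ c).2) (fun _ _ => by simp) (fun c hc c' hc' e =>
          hφ (Prod.ext ((h1 c hc).trans (h1 c' hc').symm) e))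
      simpa using this
    let R := (univ : Finset (Fin (k + 1))).filter fun c : Fin (k + 1) =>
      b < (c : ℕ) ∧ 1 + ((c : ℕ) - 1) % b = p
    have h3 : R.card ≤ (Ico 1 q).card := by
      refine card_le_card_of_injOn (fun c => ((c : ℕ) - 1) / b) ?_ ?_
      · intro c hc
        have h := (mem_filter.1 (mem_coe.1 hc)).2
        have := c.2
        simp only [coe_Ico, Set.mem_Ico]
        refine ⟨(Nat.le_div_iff_mul_le hb).2 (by omega), (Nat.div_lt_iff_lt_mul hb).2 ?_⟩
        rw [mul_comm]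
        omega
      · intro c hc c' hc' e
        have h := (mem_filter.1 (mem_coe.1 hc)).2
        have h' := (mem_filter.1 (mem_coe.1 hc')).2
        have e1 := Nat.div_add_mod (c - 1) b
        have e2 := Nat.div_add_mod (c' - 1) b
        simp only at e
        rw [e] at e1
        exact Fin.ext (by omega)
    let U := (univ : Finset (Fin (k + 1))).filter fun c : Fin (k + 1) =>
      1 ≤ (c : ℕ) ∧ (c : ℕ) ≤ b
    have h4 : U.card ≤ (Icc 1 b).card := by
      refine card_le_card_of_injOn (fun c => (c : ℕ)) ?_ (fun _ _ _ _ e => Fin.ext e)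
      intro c hc
      simpa using (mem_filter.1 (mem_coe.1 hc)).2
    have h5 : (univ : Finset (Fin (k + 1))) ⊆ S ∪ R ∪ U := by
      intro c _
      simp only [S, R, U, mem_union, mem_filter, mem_univ, true_and]
      omega
    have h6 := (card_le_card h5).trans ((card_union_le _ _).trans
      (Nat.add_le_add_right (card_union_le _ _) _))
    have hq0 : 0 < q := by
      rcases Nat.eq_zero_or_pos q with h | h
      · rw [h] at hq; omega
      · exact h
    simp only [card_univ, Fintype.card_fin, Nat.card_Ico, Nat.card_Icc] at h3 h4 h6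
    omega

lemma exists_bq (k : ℕ) (hk : 0 < k) :
    ∃ b q, 0 < b ∧ k ≤ b * q ∧ b + q ≤ ⌈2 * Real.sqrt k⌉₊ := by
  obtain ⟨c, hc⟩ : ∃ c, c = ⌈2 * Real.sqrt k⌉₊ := ⟨_, rfl⟩
  have h1 : 2 * Real.sqrt k ≤ c := hc ▸ Nat.le_ceil _
  have h2 : (4 * k : ℝ) ≤ (c : ℝ) ^ 2 := by
    have h3 := Real.sq_sqrt (Nat.cast_nonneg (α := ℝ) k)
    have h4 := Real.sqrt_nonneg (k : ℝ)
    nlinarith
  have h3 : 4 * k ≤ c ^ 2 := by exact_mod_cast h2
  rw [← hc]
  obtain ⟨d, hd | hd⟩ := Nat.even_or_odd' c
  · subst hd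
    have : k ≤ d * d := by nlinarith
    exact ⟨d, d, Nat.pos_of_ne_zero (by rintro rfl; omega), this, by omega⟩
  · subst hd
    have e : (2 * d + 1) ^ 2 = 4 * ((d + 1) * d) + 1 := by ring
    exact ⟨d + 1, d, by omega, by omega, by omega⟩

theorem result (k : ℕ) (hk : ⌈2 * Real.sqrt k⌉₊ < k) (x : ℝ) :
    (Works IsOriented k x → (k : ℝ) - ⌈2 * Real.sqrt k⌉₊ ≤ x) ∧
    (Works IsDigraph k x → (k : ℝ) - ⌈2 * Real.sqrt k⌉₊ ≤ x) := by
  have key : Works IsOriented k x → (k : ℝ) - ⌈2 * Real.sqrt k⌉₊ ≤ x := by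
    intro hW
    by_contra hcon
    obtain ⟨b, q, hb, hq, hbq⟩ := exists_bq k (by omega)
    obtain ⟨h1, h2, h3, h4⟩ := main k (k - ⌈2 * Real.sqrt k⌉₊) b q (by omega) hb hq (by omega)
    have hx : x < ((k - ⌈2 * Real.sqrt k⌉₊ : ℕ) : ℝ) := by
      rw [Nat.cast_sub hk.le]
      exact not_le.1 hcon
    refine h4 (hW _ _ h1 (fun v => ?_) h3 _ (tr_tree k b hb (by omega)))
    exact ⟨hx.trans_le (by exact_mod_cast (h2 v).1), hx.trans_le (by exact_mod_cast (h2 v).2)⟩
  exact ⟨key, fun hW => key fun V _ D hD => hW V D fun u hu => hD u u hu hu⟩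

end Pool.Agent.Results.MP_47458b_co.Lower
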